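import Pool.Agent.Q14.RelCert

set_option autoImplicit false

/-!
# MP_718c62_al: Stanley projective dimension at projective dimension `k - 1` and `k - 2`

The products of the rows and of the columns of a `3 × 3` matrix of variables (`k = 6`, `pdim = 5`,
`spdim = 4`), and the products of the vertices of the six faces of a cube (`k = 6`, `pdim = 4`,
`spdim = 3`), over every field.
-/

namespace Pool.Agent.Results.MP_718c62_al.RowsAndColumns

open CategoryTheory MvPolynomial Pool.Agent.Q14.PdColon Pool.Agent.Q14.PdKos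
  Pool.Agent.Q14.StanDec Pool.Agent.Q14.RelCert

universe u

section defs

variable {n : ℕ}

/-- The monomial ideal of `S = K[x_1, …, x_n]` generated by the monomials with exponents in `A`. -/
noncomputable def monomialIdeal (K : Type u) [Field K] (A : Finset (Fin n →₀ ℕ)) :
    Ideal (MvPolynomial (Fin n) K) :=
  Ideal.span ((fun a => monomial a (1 : K)) '' (A : Set (Fin n →₀ ℕ)))

/-- `A` is the set of exponents of the minimal monomial generators of an ideal. -/
def IsMinimal (A : Finset (Fin n →₀ ℕ)) : Prop := ∀ a ∈ A, ∀ b ∈ A, a ≤ b → a = b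

/-- The assertion of the question for the ideals with `k` generators and `pdim S/I = k - t`, over
the field `K`. -/
def Assertion (K : Type u) [Field K] (t : ℕ) : Prop :=
  ∀ (n : ℕ) (A : Finset (Fin n →₀ ℕ)), A.Nonempty → (0 : Fin n →₀ ℕ) ∉ A → IsMinimal A →
    pdim (monomialIdeal K A) + t = A.card →
      ((spdim (monomialIdeal K A) : ℕ) : WithBot ℕ∞) = pdim (monomialIdeal K A)

/-- The exponent of the product of the variables in `T`. -/
noncomputable def expo (T : Finset (Fin n)) : Fin n →₀ ℕ :=
  Finsupp.equivFunOnFinite.symm (fun v => if v ∈ T then 1 else 0)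

/-- The exponents of the products of the variables in the members of `G`. -/
noncomputable def products (G : Finset (Finset (Fin n))) : Finset (Fin n →₀ ℕ) :=
  open Classical in G.image expo

/-- The rows and the columns of the `3 × 3` matrix with the entries `0, …, 8`. -/
def rowsCols : Finset (Finset (Fin 9)) :=
  {{0, 1, 2}, {3, 4, 5}, {6, 7, 8}, {0, 3, 6}, {1, 4, 7}, {2, 5, 8}}

/-- The vertex sets of the faces of the cube with the vertices `a + 2 b + 4 c`, `a, b, c ∈ {0, 1}`. -/
def cubeFaces : Finset (Finset (Fin 8)) :=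
  {{0, 2, 4, 6}, {1, 3, 5, 7}, {0, 1, 4, 5}, {2, 3, 6, 7}, {0, 1, 2, 3}, {4, 5, 6, 7}}

end defs

section lemmas

variable {n : ℕ} {K : Type u} [Field K]

lemma expo_eq (T : Finset (Fin n)) : expo T = ex n (code T) := by
  ext v
  rw [ex_apply, testBit_code]
  change (if v ∈ T then 1 else 0) = _
  by_cases h : v ∈ T <;> simp [h]

lemma ideal_eq (G : Finset (Finset (Fin n))) (L : List ℕ) (h1 : ∀ T ∈ G, code T ∈ L)
    (h2 : ∀ m ∈ L, ∃ T ∈ G, code T = m) : monomialIdeal K (products G) = IL K n L := by
  classical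
  unfold monomialIdeal IL products
  congr 2
  ext s
  rw [Finset.mem_coe, Finset.mem_image, Set.mem_ofPred_eq]
  constructor
  · rintro ⟨T, hT, rfl⟩
    exact ⟨_, h1 T hT, expo_eq T⟩
  · rintro ⟨m, hm, rfl⟩
    obtain ⟨T, hT, rfl⟩ := h2 m hm
    exact ⟨T, hT, expo_eq T⟩

lemma expo_le {S T : Finset (Fin n)} : expo S ≤ expo T ↔ S ⊆ T := by
  constructor
  · intro h v hv
    have h1 : (if v ∈ S then 1 else 0) ≤ (if v ∈ T then 1 else 0) := h v
    rw [if_pos hv] at h1
    by_contra hT
    rw [if_neg hT] at h1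
    omega
  · intro h v
    change (if v ∈ S then 1 else 0) ≤ (if v ∈ T then 1 else 0)
    by_cases hv : v ∈ S
    · rw [if_pos hv, if_pos (h hv)]
    · rw [if_neg hv]; exact Nat.zero_le _

lemma expo_inj : Function.Injective (expo : Finset (Fin n) → (Fin n →₀ ℕ)) := by
  intro S T h
  exact Finset.Subset.antisymm (expo_le.1 h.le) (expo_le.1 h.ge)

lemma products_min (G : Finset (Finset (Fin n))) (h : ∀ S ∈ G, ∀ T ∈ G, S ⊆ T → S = T) :
    IsMinimal (products G) := by
  classical
  intro a ha b hb hab
  unfold products at ha hb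
  obtain ⟨S, hS, rfl⟩ := Finset.mem_image.1 ha
  obtain ⟨T, hT, rfl⟩ := Finset.mem_image.1 hb
  rw [h S hS T hT (expo_le.1 hab)]

lemma products_card (G : Finset (Finset (Fin n))) : (products G).card = G.card := by
  classical
  unfold products
  exact Finset.card_image_of_injective _ expo_inj

lemma zero_not_mem (G : Finset (Finset (Fin n))) (h : ∀ S ∈ G, S.Nonempty) :
    (0 : Fin n →₀ ℕ) ∉ products G := by
  classical
  intro h0
  unfold products at h0
  obtain ⟨S, hS, h1⟩ := Finset.mem_image.1 h0
  obtain ⟨v, hv⟩ := h S hS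
  have h2 := DFunLike.congr_fun h1 v
  change (if v ∈ S then 1 else 0) = 0 at h2
  rw [if_pos hv] at h2
  omega

lemma mask_ex {F : ℕ} (hF : F < 2 ^ n) : mask (ex n F) = F := by
  apply Nat.eq_of_testBit_eq
  intro i
  by_cases hi : i < n
  · have h1 := testBit_mask (ex n F) ⟨i, hi⟩
    change (mask (ex n F)).testBit i = _ at h1
    rw [h1, ex_apply]
    cases F.testBit i <;> simp
  · rw [testBit_mask_ge _ (by omega)]
    exact (Nat.testBit_lt_two_pow (lt_of_lt_of_le hF (Nat.pow_le_pow_right (by norm_num)
      (by omega)))).symm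

lemma mask_ex_add {F : ℕ} (hF : F < 2 ^ n) (v : Fin n) :
    mask (ex n F + Finsupp.single v 1) = F ||| 2 ^ v.1 := by
  apply Nat.eq_of_testBit_eq
  intro i
  rw [Nat.testBit_or, Nat.testBit_two_pow]
  by_cases hi : i < n
  · have h1 := testBit_mask (ex n F + Finsupp.single v 1) ⟨i, hi⟩
    change (mask _).testBit i = _ at h1
    rw [h1, Finsupp.add_apply, ex_apply]
    by_cases h2 : v.1 = i
    · have h3 : v = ⟨i, hi⟩ := Fin.ext h2
      rw [← h3, Finsupp.single_eq_same]
      simp [h2]
    · have h3 : v ≠ ⟨i, hi⟩ := fun h => h2 (congrArg Fin.val h)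
      rw [Finsupp.single_eq_of_ne (Ne.symm h3)]
      cases F.testBit i <;> simp [h2]
  · rw [testBit_mask_ge _ (by omega)]
    have h4 : F.testBit i = false := Nat.testBit_lt_two_pow
      (lt_of_lt_of_le hF (Nat.pow_le_pow_right (by norm_num) (by omega)))
    have := v.2
    rw [h4]
    simp; omega

/-- the conditions checked for a facet -/
def FacetOK (n : ℕ) (L : List ℕ) (F : ℕ) : Prop :=
  F < 2 ^ n ∧ (∀ g ∈ L, g < 2 ^ n) ∧ (L.any fun g => g &&& F == g) = false ∧
    ∀ v : Fin n, F.testBit v.1 = false → (L.any fun g => g &&& (F ||| 2 ^ v.1) == g) = true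

instance (n : ℕ) (L : List ℕ) (F : ℕ) : Decidable (FacetOK n L F) := by
  unfold FacetOK; infer_instance

lemma sdepth_exact (L : List ℕ) (F s : ℕ) (D : List (ℕ × ℕ)) (hF : FacetOK n L F)
    (hs : ((List.range n).filter fun v => F.testBit v).length = s) (hD : chk n s L D = true) :
    sdepth (IL K n L) = s := by
  obtain ⟨h1, h2, h3, h4⟩ := hF
  have hb := bound (J := IL K n L) (ex n F) (by
    rw [mono_mem_IL L h2, mask_ex h1, h3]; simp) s (by
    intro Z hZ
    rw [← hs, ← card_zs]
    refine Finset.card_le_card fun v hv => ?_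
    rw [mem_zs]
    by_contra h5
    rw [Bool.not_eq_true] at h5
    apply hZ v hv
    rw [mono_mem_IL L h2, mask_ex_add h1]
    exact h4 v h5)
  exact le_antisymm hb.2 (sdepth_ge s L D hD hb.1)

lemma pdim_exact (L : List ℕ) (i fuel : ℕ) (hi : 1 ≤ i) (hin : i ≤ n) (v : Fin n)
    (Z F : List (ℕ × ℤ)) (m0 : ℕ) (hC : Cert n i L Z F m0) (hB : pdB fuel L = some (i + 1)) :
    pdim (IL K n L) = ((i + 1 : ℕ) : WithBot ℕ∞) := by
  apply le_antisymm
  · unfold pdim
    rw [projectiveDimension_le_iff]
    exact pdB_spec fuel L (i + 1) hB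
  · unfold pdim
    rw [projectiveDimension_ge_iff]
    exact not_pd_of_betti _ hi (Pool.Agent.Q14.Betti.betti_ne_zero
      (torNe_of_cert i L Z F m0 hC v hin))

end lemmas

section data

/-- bit masks -/
def L9 : List ℕ := [292, 146, 73, 448, 56, 7]

def Z9 : List (ℕ × ℤ) := [(295, 1), (307, -1), (313, 1), (403, 1), (409, -1), (457, 1)]

def F9 : List (ℕ × ℤ) := [(79, 1), (87, 1), (103, 1), (143, 1), (151, 1), (167, 1), (271, 1),
  (279, 1), (295, 1)]

def D9 : List (ℕ × ℕ) := [(94, 94), (40, 110), (35, 115), (33, 117), (32, 118), (137, 157),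
  (161, 171), (45, 173), (174, 174), (177, 181), (128, 206), (129, 213), (144, 220), (195, 227),
  (165, 229), (164, 230), (160, 234), (172, 236), (225, 241), (176, 244), (9, 283), (13, 285),
  (30, 286), (41, 299), (307, 307), (0, 334), (1, 339), (5, 341), (20, 342), (16, 346), (28, 348),
  (289, 355), (288, 362), (305, 369), (304, 370), (131, 395), (385, 397), (384, 398), (405, 405),
  (401, 409), (400, 412), (417, 419), (425, 425), (416, 426), (432, 433), (238, 238), (245, 245),
  (350, 350), (371, 371), (413, 413), (427, 427)]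

def L8 : List ℕ := [85, 170, 51, 204, 15, 240]

def Z8 : List (ℕ × ℤ) := [(43, -1), (77, 1), (105, 1), (113, -1), (232, 1)]

def F8 : List (ℕ × ℤ) := [(23, 1), (27, 1), (39, 1), (43, 1), (71, 1), (75, 1), (135, 1), (139, 1)]

def D8 : List (ℕ × ℕ) := [(61, 61), (62, 62), (91, 91), (30, 94), (71, 103), (43, 107), (69, 109),
  (14, 110), (6, 118), (97, 121), (2, 122), (64, 124), (23, 151), (27, 155), (29, 157), (138, 158),
  (7, 167), (13, 173), (5, 181), (130, 182), (33, 185), (0, 188), (197, 199), (11, 203), (19, 211),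
  (196, 214), (1, 217), (192, 218), (3, 227), (225, 229), (224, 230), (232, 233), (126, 126),
  (189, 189), (219, 219), (231, 231)]

lemma chk9 : chk 9 5 L9 D9 = true := by decide +kernel

lemma chk8 : chk 8 5 L8 D8 = true := by decide +kernel

lemma cert9 : Cert 9 4 L9 Z9 F9 295 := by decide +kernel

lemma cert8 : Cert 8 3 L8 Z8 F8 43 := by decide +kernel

lemma codes9 : (∀ T ∈ rowsCols, code T ∈ L9) ∧ ∀ m ∈ L9, ∃ T ∈ rowsCols, code T = m := by
  decide +kernel

lemma codes8 : (∀ T ∈ cubeFaces, code T ∈ L8) ∧ ∀ m ∈ L8, ∃ T ∈ cubeFaces, code T = m := by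
  decide +kernel

lemma min9 : (∀ S ∈ rowsCols, ∀ T ∈ rowsCols, S ⊆ T → S = T) ∧ (∀ S ∈ rowsCols, S.Nonempty) ∧
    rowsCols.card = 6 := by decide +kernel

lemma min8 : (∀ S ∈ cubeFaces, ∀ T ∈ cubeFaces, S ⊆ T → S = T) ∧ (∀ S ∈ cubeFaces, S.Nonempty) ∧
    cubeFaces.card = 6 := by decide +kernel

lemma facet9 : FacetOK 9 L9 220 := by decide +kernel

lemma facet8 : FacetOK 8 L8 233 := by decide +kernel

lemma size9 : ((List.range 9).filter fun v => (220 : ℕ).testBit v).length = 5 := by decide +kernel

lemma size8 : ((List.range 8).filter fun v => (233 : ℕ).testBit v).length = 5 := by decide +kernel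

end data

/-- **Main theorem.** Over every field, the question has a negative answer for `pdim = k - 1` and
for `pdim = k - 2`.
* For the ideal generated by the products of the three rows and of the three columns of a `3 × 3`
  matrix of variables, `k = 6`, `pdim S/I = 5` and `spdim S/I = 4`.
* For the ideal generated by the products of the vertices of the six faces of a cube, `k = 6`,
  `pdim S/I = 4` and `spdim S/I = 3`. -/
theorem result (K : Type u) [Field K] :
    (IsMinimal (products rowsCols) ∧ (products rowsCols).card = 6 ∧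
      pdim (monomialIdeal K (products rowsCols)) = 5 ∧
      spdim (monomialIdeal K (products rowsCols)) = 4) ∧
    (IsMinimal (products cubeFaces) ∧ (products cubeFaces).card = 6 ∧
      pdim (monomialIdeal K (products cubeFaces)) = 4 ∧
      spdim (monomialIdeal K (products cubeFaces)) = 3) ∧
    ¬ Assertion K 1 ∧ ¬ Assertion K 2 := by
  have e9 : monomialIdeal K (products rowsCols) = IL K 9 L9 := ideal_eq _ _ codes9.1 codes9.2
  have e8 : monomialIdeal K (products cubeFaces) = IL K 8 L8 := ideal_eq _ _ codes8.1 codes8.2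
  have p9 : pdim (monomialIdeal K (products rowsCols)) = 5 := by
    rw [e9]
    exact pdim_exact L9 4 6 (by norm_num) (by norm_num) 0 Z9 F9 295 cert9 (by decide +kernel)
  have p8 : pdim (monomialIdeal K (products cubeFaces)) = 4 := by
    rw [e8]
    exact pdim_exact L8 3 6 (by norm_num) (by norm_num) 0 Z8 F8 43 cert8 (by decide +kernel)
  have s9 : spdim (monomialIdeal K (products rowsCols)) = 4 := by
    rw [e9]
    unfold spdim
    rw [sdepth_exact L9 220 5 D9 facet9 size9 chk9]
  have s8 : spdim (monomialIdeal K (products cubeFaces)) = 3 := by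
    rw [e8]
    unfold spdim
    rw [sdepth_exact L8 233 5 D8 facet8 size8 chk8]
  have c9 : (products rowsCols).card = 6 := by rw [products_card]; exact min9.2.2
  have c8 : (products cubeFaces).card = 6 := by rw [products_card]; exact min8.2.2
  have m9 := products_min rowsCols min9.1
  have m8 := products_min cubeFaces min8.1
  refine ⟨⟨m9, c9, p9, s9⟩, ⟨m8, c8, p8, s8⟩, fun h => ?_, fun h => ?_⟩
  · have h1 := h 9 (products rowsCols) (Finset.card_pos.1 (by omega))
      (zero_not_mem _ min9.2.1) m9 (by rw [p9, c9]; norm_num)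
    rw [p9, s9] at h1
    exact absurd h1 (by norm_num)
  · have h1 := h 8 (products cubeFaces) (Finset.card_pos.1 (by omega))
      (zero_not_mem _ min8.2.1) m8 (by rw [p8, c8]; norm_num)
    rw [p8, s8] at h1
    exact absurd h1 (by norm_num)

end Pool.Agent.Results.MP_718c62_al.RowsAndColumns
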